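import Mathlib
import Pool.Agent.Work.MP_2fa0cb_nt.Defs
import Pool.Agent.Work.MP_2fa0cb_nt.Proof

set_option autoImplicit false

namespace Pool.Agent.Results.MP_2fa0cb_nt.RankTwoFails

open Pool.Agent.Work.MP_2fa0cb_nt

/-- Question 2 has a negative answer, for power maps of every pair of degrees. -/
theorem result : ∀ a b : ℕ, 2 ≤ a → 2 ≤ b → ∃ (ζ : ℂ) (k : ℕ), ζ ≠ 0 ∧ 1 ≤ k ∧
    ¬ IsSemilinearSet (recSet2 (RatFunc.X ^ a) (RatFunc.X ^ b)
      (RatFunc.C ζ / RatFunc.X ^ k)) := by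
  intro a b ha hb
  obtain ⟨q, hqge, hq⟩ := Nat.exists_infinite_primes (a + b + 3)
  have hodd : Odd q := hq.odd_of_ne_two (by omega)
  have hqa : ¬ q ∣ a := fun h => by
    have := Nat.le_of_dvd (by omega) h
    omega
  have hqb : ¬ q ∣ b := fun h => by
    have := Nat.le_of_dvd (by omega) h
    omega
  obtain ⟨k, hk, h⟩ := main ha hb hq hodd hqa hqb
  have hζ := Complex.isPrimitiveRoot_exp q hq.ne_zero
  exact ⟨_, k, hζ.ne_zero hq.ne_zero, hk, h _ hζ⟩

end Pool.Agent.Results.MP_2fa0cb_nt.RankTwoFails
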